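import Pool.Agent.Run7.h676.CS.Abs

/-! Invariant maximal nonnegative subspaces with a prescribed set of eigenvalues -/

set_option autoImplicit false

namespace Run7.h676.CS

open Quaternion MulOpposite Pool.Agent.R713

theorem quad {m n : ℍ[ℝ]}
    (h : m * m + ((2 * n.re : ℝ) : ℍ[ℝ]) * m + ((normSq n : ℝ) : ℍ[ℝ]) = 0) :
    n.re = -m.re ∧ normSq n = normSq m := by
  have h1 : ((2 * (m.re + n.re) : ℝ) : ℍ[ℝ]) * m = ((normSq m - normSq n : ℝ) : ℍ[ℝ]) := by
    have h2 := quat_sq m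
    rw [h2] at h
    have h3 : ((2 * (m.re + n.re) : ℝ) : ℍ[ℝ]) * m - ((normSq m - normSq n : ℝ) : ℍ[ℝ]) = 0 := by
      rw [← h, mul_add, Quaternion.coe_add, add_mul, Quaternion.coe_sub]
      abel
    exact sub_eq_zero.1 h3
  have e0 := congrArg (fun q : ℍ[ℝ] => q.re) h1
  have e1 := congrArg (fun q : ℍ[ℝ] => q.imI) h1
  have e2 := congrArg (fun q : ℍ[ℝ] => q.imJ) h1
  have e3 := congrArg (fun q : ℍ[ℝ] => q.imK) h1
  simp only [Quaternion.re_mul, Quaternion.imI_mul, Quaternion.imJ_mul, Quaternion.imK_mul,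
    Quaternion.re_coe, Quaternion.imI_coe, Quaternion.imJ_coe, Quaternion.imK_coe, zero_mul,
    sub_zero, add_zero, zero_add] at e0 e1 e2 e3
  have hsum : m.re + n.re = 0 := by
    by_contra hne
    have hne2 : 2 * (m.re + n.re) ≠ 0 := mul_ne_zero two_ne_zero hne
    have f1 : m.imI = 0 := (mul_eq_zero.1 e1).resolve_left hne2
    have f2 : m.imJ = 0 := (mul_eq_zero.1 e2).resolve_left hne2
    have f3 : m.imK = 0 := (mul_eq_zero.1 e3).resolve_left hne2
    rw [Quaternion.normSq_def', Quaternion.normSq_def', f1, f2, f3] at e0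
    have f4 : (m.re + n.re) ^ 2 + (n.imI ^ 2 + n.imJ ^ 2 + n.imK ^ 2) = 0 := by nlinarith
    have f5 : (m.re + n.re) ^ 2 ≤ 0 := by nlinarith [sq_nonneg n.imI, sq_nonneg n.imJ, sq_nonneg n.imK]
    exact hne (pow_eq_zero_iff two_ne_zero |>.1 (le_antisymm f5 (sq_nonneg _)))
  refine ⟨by linarith, ?_⟩
  rw [hsum] at e0
  linarith

section

variable {V : Type*} [AddCommGroup V] [Module ℍ[ℝ]ᵐᵒᵖ V] [Module ℝ V] [IsScalarTower ℝ ℍ[ℝ]ᵐᵒᵖ V]
  [FiniteDimensional ℝ V] [Module.Finite ℍ[ℝ]ᵐᵒᵖ V]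

theorem main_abs {G : V → V → ℍ[ℝ]} (h : QHerm G) (A : V →ₗ[ℍ[ℝ]ᵐᵒᵖ] V)
    (hA : ∀ x y, G (A x) y = -G x (A y)) (hND : ∀ x, (∀ y, G x y = 0) → A x = 0)
    (S : Set ℍ[ℝ]) (S1 : ∀ l ∈ S, ∃ x, x ≠ 0 ∧ A x = op l • x) (S2 : ∀ l ∈ S, l.re ≠ 0)
    (S3 : ∀ l ∈ S, ∀ m : ℍ[ℝ], m.re = l.re → normSq m = normSq l → m ∈ S)
    (S4 : ∀ l ∈ S, -l ∉ S)
    (S5 : ∀ m : ℍ[ℝ], (∃ x, x ≠ 0 ∧ A x = op m • x) → m.re ≠ 0 → m ∈ S ∨ -m ∈ S)
    (N : Submodule ℍ[ℝ]ᵐᵒᵖ V) (hN : ∀ x ∈ N, A x ∈ N) (hneu : ∀ x ∈ N, ∀ y ∈ N, G x y = 0)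
    (hNS : ∀ l : ℍ[ℝ], EigOn A N l → l.re ≠ 0 → l ∈ S) :
    ∃ L : Submodule ℍ[ℝ]ᵐᵒᵖ V, N ≤ L ∧ (∀ x ∈ L, A x ∈ L) ∧ QNonneg G L ∧
      (∀ M : Submodule ℍ[ℝ]ᵐᵒᵖ V, L ≤ M → QNonneg G M → M = L) ∧
      ∀ l : ℍ[ℝ], l.re ≠ 0 → (EigOn A L l ↔ l ∈ S) := by
  classical
  -- no two elements of `S` are opposite up to similarity
  have S6 : ∀ l ∈ S, ∀ v ∈ S, l.re = -v.re → normSq l = normSq v → False := by
    intro l hl v hv h1 h2
    refine S4 v hv (S3 l hl (-v) ?_ ?_)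
    · rw [Quaternion.re_neg, h1]
    · rw [normSq_neg, h2]
  let P : Submodule ℍ[ℝ]ᵐᵒᵖ V → Prop := fun M => N ≤ M ∧ (∀ x ∈ M, A x ∈ M) ∧
    (∀ x ∈ M, ∀ y ∈ M, G x y = 0) ∧ ∀ l : ℍ[ℝ], EigOn A M l → l.re ≠ 0 → l ∈ S
  have hPN : P N := ⟨le_rfl, hN, hneu, hNS⟩
  obtain ⟨N', ⟨hNN', hN'i, hN'n, hN'S⟩, hN'max⟩ := WellFounded.has_min
    (wellFounded_gt : WellFounded ((· > ·) : Submodule ℍ[ℝ]ᵐᵒᵖ V → Submodule ℍ[ℝ]ᵐᵒᵖ V → Prop))
    {M | P M} ⟨N, hPN⟩
  -- absorption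
  have absorb : ∀ M : Submodule ℍ[ℝ]ᵐᵒᵖ V, (∀ x ∈ M, A x ∈ M) → (∀ v, EigOn A M v → v ∈ S) →
      M ≤ N' := by
    intro M hMi hMS
    have hMM : ∀ x ∈ M, ∀ y ∈ M, G x y = 0 := by
      intro x hx y hy
      by_contra hne
      obtain ⟨l, v, hl, hv, h1, h2⟩ := lemO h A hA hMi hMi hx hy hne
      exact S6 l (hMS l hl) v (hMS v hv) h1 h2
    have hNM : ∀ x ∈ N', ∀ y ∈ M, G x y = 0 := by
      intro x hx y hy
      by_contra hne
      obtain ⟨l, v, hl, hv, h1, h2⟩ := lemO h A hA hN'i hMi hx hy hne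
      have hv' := hMS v hv
      have hl0 : l.re ≠ 0 := by rw [h1]; exact neg_ne_zero.2 (S2 v hv')
      exact S6 l (hN'S l hl hl0) v hv' h1 h2
    have hP : P (N' ⊔ M) := by
      refine ⟨hNN'.trans le_sup_left, ?_, ?_, ?_⟩
      · intro x hx
        obtain ⟨a, ha, b, hb, rfl⟩ := Submodule.mem_sup.1 hx
        rw [map_add]
        exact Submodule.mem_sup.2 ⟨_, hN'i a ha, _, hMi b hb, rfl⟩
      · intro x hx y hy
        obtain ⟨a, ha, b, hb, rfl⟩ := Submodule.mem_sup.1 hx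
        obtain ⟨c, hc, d, hd, rfl⟩ := Submodule.mem_sup.1 hy
        have e : G b c = 0 := by rw [h.symm c b, hNM c hc b hb, star_zero]
        rw [h.add_left, h.add_right, h.add_right, hN'n a ha c hc, hNM a ha d hd, e, hMM b hb d hd]
        simp
      · rintro v ⟨z, hz, hz0, hzv⟩ hv0
        by_cases hzN : z ∈ N'
        · exact hN'S v ⟨z, hzN, hz0, hzv⟩ hv0
        · obtain ⟨a, ha, b, hb, rfl⟩ := Submodule.mem_sup.1 hz
          have hb' : b ∉ M ⊓ N' := fun hb2 =>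
            hzN (N'.add_mem ha (Submodule.mem_inf.1 hb2).2)
          have hK : ∀ x ∈ M ⊓ N', A x ∈ M ⊓ N' := fun x hx =>
            Submodule.mem_inf.2 ⟨hMi x (Submodule.mem_inf.1 hx).1, hN'i x (Submodule.mem_inf.1 hx).2⟩
          have hbK : A b - op v • b ∈ M ⊓ N' := by
            refine Submodule.mem_inf.2 ⟨M.sub_mem (hMi b hb) (M.smul_mem _ hb), ?_⟩
            have e : A b - op v • b = -(A a - op v • a) := by
              rw [map_add, smul_add] at hzv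
              have e2 : A b = op v • a + op v • b - A a := by rw [← hzv]; abel
              rw [e2]; abel
            rw [e]
            exact N'.neg_mem (N'.sub_mem (hN'i a ha) (N'.smul_mem _ ha))
          obtain ⟨l, hl, h1, h2⟩ := lemE A hMi hK inf_le_left hb hb' hbK
          exact S3 l (hMS l hl) v h1.symm h2.symm
    by_contra hMN
    refine hN'max _ hP (lt_of_le_of_ne le_sup_left fun he => hMN ?_)
    rw [he]
    exact le_sup_right
  obtain ⟨L, hL1, hLi, hLn, hLmax⟩ := extend_nonneg h A hA N' hN'i hN'n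
  refine ⟨L, hNN'.trans hL1, hLi, hLn, hLmax, fun l hl0 => ⟨?_, ?_⟩⟩
  · -- eigenvalues on `L` lie in `S`
    rintro ⟨x, hx, hx0, hxl⟩
    by_contra hlS
    have hlS' : -l ∈ S := (S5 l ⟨x, hx0, hxl⟩ hl0).resolve_left hlS
    have hneu0 : (G x x).re = 0 := by
      have e := hA x x
      rw [hxl, h.smul_left, h.smul_right] at e
      have e2 := congrArg (fun q : ℍ[ℝ] => q.re) e
      rw [h.real x] at e2
      simp only [Quaternion.re_neg, Quaternion.re_mul, Quaternion.re_coe, Quaternion.imI_coe,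
        Quaternion.imJ_coe, Quaternion.imK_coe, Quaternion.re_star, mul_zero, zero_mul,
        sub_zero] at e2
      have e3 : l.re * (G x x).re = 0 := by linarith
      exact (mul_eq_zero.1 e3).resolve_left hl0
    have hperp : ∀ m ∈ L, G x m = 0 := fun m hm => h.cs hLn hx hm hneu0
    have hAx : A x ≠ 0 := by
      rw [hxl]
      intro h0
      rcases smul_eq_zero.1 h0 with h1 | h1
      · apply hl0
        have h2 : l = 0 := op_injective (by rw [h1, op_zero])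
        rw [h2]; simp
      · exact hx0 h1
    have htop : ¬ (⊤ : Submodule ℍ[ℝ]ᵐᵒᵖ V) ≤ h.perp x := by
      intro hle
      exact hAx (hND x fun y => (h.mem_perp x y).1 (hle Submodule.mem_top))
    obtain ⟨M, ⟨hMi, hMK⟩, hMmin⟩ := WellFounded.has_min
      (wellFounded_lt : WellFounded ((· < ·) : Submodule ℍ[ℝ]ᵐᵒᵖ V → Submodule ℍ[ℝ]ᵐᵒᵖ V → Prop))
      {M | (∀ x ∈ M, A x ∈ M) ∧ ¬ M ≤ h.perp x} ⟨⊤, fun _ _ => Submodule.mem_top, htop⟩
    have hMS : ∀ v, EigOn A M v → v ∈ S := by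
      rintro v ⟨z, hz, hz0, hzv⟩
      -- the image of `M` under `T` is proper
      have hTz : T A v.re (normSq v) z = 0 := by
        have e : A z = op v • z + 0 := by rw [add_zero, hzv]
        rw [T_eig A e]; simp
      have hcomm : ∀ m, A (T A v.re (normSq v) m) = T A v.re (normSq v) (A m) := by
        intro m
        rw [T_apply, T_apply, map_add, map_sub, map_smul, map_smul]
      set M2 := M.map (T A v.re (normSq v)) with hM2
      have hM2i : ∀ x ∈ M2, A x ∈ M2 := by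
        rintro _ ⟨m, hm, rfl⟩
        rw [hcomm]
        exact ⟨A m, hMi m hm, rfl⟩
      have hM2le : M2 ≤ M := by
        rintro _ ⟨m, hm, rfl⟩
        exact T_mem A _ _ hMi m hm
      have hM2ne : M2 ≠ M := by
        intro he
        have hsurj : Function.Surjective
            ((T A v.re (normSq v)).restrict (T_mem A v.re (normSq v) hMi)) := by
          rintro ⟨y, hy⟩
          rw [← he] at hy
          obtain ⟨m, hm, hmy⟩ := hy
          exact ⟨⟨m, hm⟩, Subtype.ext hmy⟩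
        have hinj := LinearMap.injective_iff_surjective.2 hsurj
        have h1 : (⟨z, hz⟩ : M) = 0 := hinj (by
          rw [map_zero]
          exact Subtype.ext hTz)
        exact hz0 (congrArg Subtype.val h1)
      have hM2K : M2 ≤ h.perp x := by
        by_contra hcon
        exact hMmin M2 ⟨hM2i, hcon⟩ (lt_of_le_of_ne hM2le hM2ne)
      obtain ⟨m0, hm0, hm0n⟩ := Set.not_subset.1 hMK
      have hg : G x m0 ≠ 0 := fun h0 => hm0n h0
      have hT0 : G x (T A v.re (normSq v) m0) = 0 := hM2K ⟨m0, hm0, rfl⟩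
      have hA' : ∀ u w, G u (A w) = -G (A u) w := fun u w => by rw [hA, neg_neg]
      have e1 : G x (A (A m0)) = star (l * l) * G x m0 := by
        rw [hA', hA', neg_neg, hxl, map_smul, hxl, smul_smul, ← op_mul, h.smul_left]
      have e2 : G x (op ((2 * v.re : ℝ) : ℍ[ℝ]) • A m0) =
          -(star l * G x m0 * ((2 * v.re : ℝ) : ℍ[ℝ])) := by
        rw [h.smul_right, hA', hxl, h.smul_left, neg_mul]
      rw [T_apply, h.add_right, h.sub_right, e1, e2, h.smul_right, sub_neg_eq_add] at hT0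
      have e3 : star (l * l + ((2 * v.re : ℝ) : ℍ[ℝ]) * l + ((normSq v : ℝ) : ℍ[ℝ])) * G x m0 = 0 := by
        rw [star_add, star_add, star_mul (((2 * v.re : ℝ) : ℍ[ℝ])) l, Quaternion.star_coe,
          Quaternion.star_coe, add_mul, add_mul]
        rw [← hT0, ← Quaternion.coe_commutes (normSq v), mul_assoc (star l) (G x m0),
          mul_assoc (star l) (((2 * v.re : ℝ) : ℍ[ℝ])), ← Quaternion.coe_commutes (2 * v.re)]
      have e4 := (mul_eq_zero.1 e3).resolve_right hg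
      have e5 : l * l + ((2 * v.re : ℝ) : ℍ[ℝ]) * l + ((normSq v : ℝ) : ℍ[ℝ]) = 0 :=
        star_eq_zero.1 e4
      obtain ⟨q1, q2⟩ := quad e5
      exact S3 (-l) hlS' v (by rw [q1, Quaternion.re_neg]) (by rw [q2, normSq_neg])
    exact hMK fun m hm => hperp m (hL1 (absorb M hMi hMS hm))
  · -- each element of `S` is an eigenvalue on `L`
    intro hlS
    obtain ⟨x, hx0, hxl⟩ := S1 l hlS
    have hMi : ∀ y ∈ Submodule.span ℍ[ℝ]ᵐᵒᵖ {x}, A y ∈ Submodule.span ℍ[ℝ]ᵐᵒᵖ {x} := by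
      intro y hy
      obtain ⟨c, rfl⟩ := Submodule.mem_span_singleton.1 hy
      rw [map_smul, hxl, smul_smul]
      exact Submodule.mem_span_singleton.2 ⟨_, rfl⟩
    have hMS : ∀ v, EigOn A (Submodule.span ℍ[ℝ]ᵐᵒᵖ {x}) v → v ∈ S := by
      rintro v ⟨z, hz, hz0, hzv⟩
      obtain ⟨c, rfl⟩ := Submodule.mem_span_singleton.1 hz
      have hc : c ≠ 0 := by
        rintro rfl
        exact hz0 (zero_smul _ _)
      rw [map_smul, hxl, smul_smul, smul_smul] at hzv
      have e1 : (c * op l - op v * c) • x = 0 := by rw [sub_smul, hzv, sub_self]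
      have e2 := sub_eq_zero.1 ((smul_eq_zero.1 e1).resolve_right hx0)
      have e3 : l * unop c = unop c * v := by
        have := congrArg unop e2
        simpa using this
      set a := unop c with ha
      have ha0 : a ≠ 0 := fun h0 => hc (unop_injective (by rw [← ha, h0, unop_zero]))
      have hna : normSq a ≠ 0 := fun h0 => ha0 (Quaternion.normSq_eq_zero.1 h0)
      have e4 : v = a⁻¹ * (l * a) := by
        rw [e3, ← mul_assoc, inv_mul_cancel₀ ha0, one_mul]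
      refine S3 l hlS v ?_ ?_
      · rw [e4, re_comm, mul_assoc, mul_inv_cancel₀ ha0, mul_one]
      · have e5 := congrArg normSq e3
        rw [map_mul, map_mul, mul_comm] at e5
        exact (mul_left_cancel₀ hna e5).symm
    exact ⟨x, hL1 (absorb _ hMi hMS (Submodule.mem_span_singleton_self x)), hx0, hxl⟩

end

end Run7.h676.CS
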