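import Pool.Agent.R713.QuatExtend

/-! Invariant neutral subspaces with prescribed eigenvalues, quaternionic case -/

set_option autoImplicit false

namespace Run7.h676.CS

open Quaternion MulOpposite Pool.Agent.R713

section

variable {V : Type*} [AddCommGroup V] [Module ℍ[ℝ]ᵐᵒᵖ V]

/-- `q` is an eigenvalue of `A` on `M`. -/
def EigOn (A : V →ₗ[ℍ[ℝ]ᵐᵒᵖ] V) (M : Submodule ℍ[ℝ]ᵐᵒᵖ V) (q : ℍ[ℝ]) : Prop :=
  ∃ x ∈ M, x ≠ 0 ∧ A x = op q • x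

theorem quat_sq (x : ℍ[ℝ]) :
    x * x = ((2 * x.re : ℝ) : ℍ[ℝ]) * x - ((normSq x : ℝ) : ℍ[ℝ]) := by
  have h1 : x * star x = ((normSq x : ℝ) : ℍ[ℝ]) := Quaternion.self_mul_star x
  have h2 : x + star x = ((2 * x.re : ℝ) : ℍ[ℝ]) := Quaternion.self_add_star' x
  have h3 : ((2 * x.re : ℝ) : ℍ[ℝ]) * x = x * x + x * star x := by
    rw [Quaternion.coe_commutes, ← h2, mul_add]
  rw [h3, h1, add_sub_cancel_right]

theorem re_comm (a b : ℍ[ℝ]) : (a * b).re = (b * a).re := by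
  simp only [Quaternion.re_mul]; ring

theorem op_coe_comm (r : ℝ) (c : ℍ[ℝ]ᵐᵒᵖ) (x : V) :
    op (r : ℍ[ℝ]) • c • x = c • op (r : ℍ[ℝ]) • x := by
  rw [smul_smul, smul_smul]
  congr 1
  apply unop_injective
  rw [unop_mul, unop_mul, unop_op]
  exact (Quaternion.coe_commutes r (unop c)).symm

/-- `A² - 2 a A + s` -/
noncomputable def T (A : V →ₗ[ℍ[ℝ]ᵐᵒᵖ] V) (a s : ℝ) : V →ₗ[ℍ[ℝ]ᵐᵒᵖ] V where
  toFun x := A (A x) - op ((2 * a : ℝ) : ℍ[ℝ]) • A x + op (s : ℍ[ℝ]) • x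
  map_add' x y := by
    simp only [map_add, smul_add]; abel
  map_smul' c x := by
    simp only [map_smul, RingHom.id_apply]
    rw [op_coe_comm, op_coe_comm, smul_add, smul_sub]

theorem T_apply (A : V →ₗ[ℍ[ℝ]ᵐᵒᵖ] V) (a s : ℝ) (x : V) :
    T A a s x = A (A x) - op ((2 * a : ℝ) : ℍ[ℝ]) • A x + op (s : ℍ[ℝ]) • x := rfl

theorem T_mem (A : V →ₗ[ℍ[ℝ]ᵐᵒᵖ] V) (a s : ℝ) {M : Submodule ℍ[ℝ]ᵐᵒᵖ V}
    (hM : ∀ x ∈ M, A x ∈ M) : ∀ x ∈ M, T A a s x ∈ M := by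
  intro x hx
  rw [T_apply]
  exact M.add_mem (M.sub_mem (hM _ (hM x hx)) (M.smul_mem _ (hM x hx))) (M.smul_mem _ hx)

/-- `T` at an approximate eigenvector -/
theorem T_eig (A : V →ₗ[ℍ[ℝ]ᵐᵒᵖ] V) {q : ℍ[ℝ]} {y k : V} (h : A y = op q • y + k) :
    T A q.re (normSq q) y = op q • k + A k - op ((2 * q.re : ℝ) : ℍ[ℝ]) • k := by
  have h1 : A (A y) = op (q * q) • y + op q • k + A k := by
    rw [h, map_add, map_smul, h, smul_add, smul_smul, ← op_mul]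
  rw [T_apply, h1, h, smul_add, smul_smul, ← op_mul]
  have h2 : q * q - q * ((2 * q.re : ℝ) : ℍ[ℝ]) + ((normSq q : ℝ) : ℍ[ℝ]) = 0 := by
    rw [← Quaternion.coe_commutes, quat_sq q]; abel
  have h3 : op (q * q) • y - op (q * ((2 * q.re : ℝ) : ℍ[ℝ])) • y +
      op ((normSq q : ℝ) : ℍ[ℝ]) • y = 0 := by
    rw [← sub_smul, ← add_smul, ← op_sub, ← op_add, h2, op_zero, zero_smul]
  have h4 : op (q * q) • y + op q • k + A k -
      (op (q * ((2 * q.re : ℝ) : ℍ[ℝ])) • y + op ((2 * q.re : ℝ) : ℍ[ℝ]) • k) +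
      op ((normSq q : ℝ) : ℍ[ℝ]) • y = (op (q * q) • y - op (q * ((2 * q.re : ℝ) : ℍ[ℝ])) • y +
      op ((normSq q : ℝ) : ℍ[ℝ]) • y) + (op q • k + A k - op ((2 * q.re : ℝ) : ℍ[ℝ]) • k) := by
    abel
  rw [h4, h3, zero_add]

theorem eig_of_T (A : V →ₗ[ℍ[ℝ]ᵐᵒᵖ] V) {M : Submodule ℍ[ℝ]ᵐᵒᵖ V} (hM : ∀ x ∈ M, A x ∈ M)
    {q : ℍ[ℝ]} {z : V} (hz : z ∈ M) (hz0 : z ≠ 0) (hT : T A q.re (normSq q) z = 0) :
    ∃ l, EigOn A M l ∧ l.re = q.re ∧ normSq l = normSq q := by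
  by_cases hw : A z - op q • z = 0
  · exact ⟨q, ⟨z, hz, hz0, sub_eq_zero.1 hw⟩, rfl, rfl⟩
  · refine ⟨star q, ⟨A z - op q • z, M.sub_mem (hM z hz) (M.smul_mem _ hz), hw, ?_⟩, ?_, ?_⟩
    · rw [← sub_eq_zero]
      have h1 : A (A z - op q • z) - op (star q) • (A z - op q • z) = T A q.re (normSq q) z := by
        rw [T_apply, map_sub, map_smul, smul_sub, smul_smul, ← op_mul, Quaternion.self_mul_star]
        have h2 : op ((2 * q.re : ℝ) : ℍ[ℝ]) • A z = op q • A z + op (star q) • A z := by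
          rw [← Quaternion.self_add_star', op_add, add_smul]
        rw [h2]
        abel
      rw [h1, hT]
    · simp
    · simp

theorem lemE [Module.Finite ℍ[ℝ]ᵐᵒᵖ V] (A : V →ₗ[ℍ[ℝ]ᵐᵒᵖ] V) {M K : Submodule ℍ[ℝ]ᵐᵒᵖ V}
    (hM : ∀ x ∈ M, A x ∈ M) (hK : ∀ x ∈ K, A x ∈ K) (hKM : K ≤ M) {y : V} (hy : y ∈ M)
    (hyK : y ∉ K) {q : ℍ[ℝ]} (h : A y - op q • y ∈ K) :
    ∃ l, EigOn A M l ∧ l.re = q.re ∧ normSq l = normSq q := by
  set P : Submodule ℍ[ℝ]ᵐᵒᵖ V := K ⊔ Submodule.span ℍ[ℝ]ᵐᵒᵖ {y} with hP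
  have hyP : y ∈ P := Submodule.mem_sup_right (Submodule.mem_span_singleton_self y)
  have hPM : P ≤ M := sup_le hKM ((Submodule.span_singleton_le_iff_mem _ _).2 hy)
  have hTy : T A q.re (normSq q) y ∈ K := by
    have h1 : A y = op q • y + (A y - op q • y) := by abel
    rw [T_eig A h1]
    exact K.sub_mem (K.add_mem (K.smul_mem _ h) (hK _ h)) (K.smul_mem _ h)
  have hTP : ∀ x ∈ P, T A q.re (normSq q) x ∈ K := by
    intro x hx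
    obtain ⟨k, hk, w, hw, rfl⟩ := Submodule.mem_sup.1 hx
    obtain ⟨c, rfl⟩ := Submodule.mem_span_singleton.1 hw
    rw [map_add, map_smul]
    exact K.add_mem (T_mem A _ _ hK k hk) (K.smul_mem _ hTy)
  have hKP : K < P := by
    refine lt_of_le_of_ne le_sup_left fun he => hyK ?_
    rw [he]; exact hyP
  have hnot : ¬ Function.Injective ((T A q.re (normSq q)).restrict hTP) := by
    intro hinj
    have h1 := LinearMap.finrank_le_finrank_of_injective hinj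
    have h2 := Submodule.finrank_lt_finrank_of_lt hKP
    omega
  rw [← LinearMap.ker_eq_bot, Submodule.eq_bot_iff] at hnot
  push Not at hnot
  obtain ⟨z, hz, hz0⟩ := hnot
  have hTz : T A q.re (normSq q) (z : V) = 0 := congrArg Subtype.val (LinearMap.mem_ker.1 hz)
  exact eig_of_T A hM (hPM z.2) (fun h0 => hz0 (Subtype.ext h0)) hTz

end

section

variable {V : Type*} [AddCommGroup V] [Module ℍ[ℝ]ᵐᵒᵖ V] [Module ℝ V] [IsScalarTower ℝ ℍ[ℝ]ᵐᵒᵖ V]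
  [FiniteDimensional ℝ V] [Module.Finite ℍ[ℝ]ᵐᵒᵖ V]

theorem lemO {G : V → V → ℍ[ℝ]} (h : QHerm G) (A : V →ₗ[ℍ[ℝ]ᵐᵒᵖ] V)
    (hA : ∀ x y, G (A x) y = -G x (A y)) {M1 M2 : Submodule ℍ[ℝ]ᵐᵒᵖ V}
    (h1 : ∀ x ∈ M1, A x ∈ M1) (h2 : ∀ x ∈ M2, A x ∈ M2) {x0 y0 : V} (hx0 : x0 ∈ M1)
    (hy0 : y0 ∈ M2) (hne : G x0 y0 ≠ 0) :
    ∃ l v, EigOn A M1 l ∧ EigOn A M2 v ∧ l.re = -v.re ∧ normSq l = normSq v := by
  let K : Submodule ℍ[ℝ]ᵐᵒᵖ V :=
    { carrier := {y | y ∈ M2 ∧ ∀ x ∈ M1, G x y = 0}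
      add_mem' := by
        rintro a b ⟨ha, ha'⟩ ⟨hb, hb'⟩
        exact ⟨M2.add_mem ha hb, fun x hx => by rw [h.add_right, ha' x hx, hb' x hx, add_zero]⟩
      zero_mem' := ⟨M2.zero_mem, fun x _ => h.zero_right x⟩
      smul_mem' := by
        rintro c a ⟨ha, ha'⟩
        refine ⟨M2.smul_mem _ ha, fun x hx => ?_⟩
        have : c • a = op (unop c) • a := by rw [op_unop]
        rw [this, h.smul_right, ha' x hx, zero_mul] }
  have memK : ∀ y, y ∈ K ↔ y ∈ M2 ∧ ∀ x ∈ M1, G x y = 0 := fun y => Iff.rfl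
  have hKi : ∀ y ∈ K, A y ∈ K := by
    intro y hy
    refine (memK _).2 ⟨h2 y hy.1, fun x hx => ?_⟩
    have e := hA x y
    rw [hy.2 (A x) (h1 x hx)] at e
    exact neg_eq_zero.1 e.symm
  have hy0K : y0 ∉ K := fun hy => hne (hy.2 x0 hx0)
  obtain ⟨y, hy, hyK, q, hq⟩ := exists_eigen A K M2 h2 hy0 hy0K
  have hex : ∃ x1 ∈ M1, G x1 y ≠ 0 := by
    by_contra hcon
    push Not at hcon
    exact hyK ((memK y).2 ⟨hy, hcon⟩)
  obtain ⟨x1, hx1, hg'⟩ := hex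
  have hg : G y x1 ≠ 0 := by
    intro h0
    apply hg'
    rw [h.symm y x1, h0, star_zero]
  have key : ∀ x ∈ M1, G y (A x) = -(star q * G y x) := by
    intro x hx
    have e1 : A y = op q • y + (A y - op q • y) := by abel
    have e2 : G (A y - op q • y) x = 0 := by
      rw [h.symm x, hq.2 x hx, star_zero]
    have e3 := hA y x
    rw [e1, h.add_left, h.smul_left, e2, add_zero] at e3
    rw [e3, neg_neg]
  let M1' : Submodule ℍ[ℝ]ᵐᵒᵖ V := M1 ⊓ h.perp y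
  have hM1' : ∀ x ∈ M1', A x ∈ M1' := by
    intro x hx
    obtain ⟨hx1, hx2⟩ := Submodule.mem_inf.1 hx
    refine Submodule.mem_inf.2 ⟨h1 x hx1, ?_⟩
    rw [h.mem_perp, key x hx1, (h.mem_perp y x).1 hx2, mul_zero, neg_zero]
  set g := G y x1 with hgdef
  set a : ℍ[ℝ] := -(g⁻¹ * (star q * g)) with ha
  have hx1a : A x1 - op a • x1 ∈ M1' := by
    refine Submodule.mem_inf.2 ⟨M1.sub_mem (h1 _ hx1) (M1.smul_mem _ hx1), ?_⟩
    rw [h.mem_perp, h.sub_right, key x1 hx1, h.smul_right, ← hgdef, ha, mul_neg, ← mul_assoc,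
      mul_inv_cancel₀ hg, one_mul]
    abel
  have hx1n : x1 ∉ M1' := fun hx => hg ((h.mem_perp y x1).1 (Submodule.mem_inf.1 hx).2)
  obtain ⟨l, hl, hl1, hl2⟩ := lemE A h1 hM1' inf_le_left hx1 hx1n hx1a
  obtain ⟨v, hv, hv1, hv2⟩ := lemE A h2 hKi (fun y hy => ((memK y).1 hy).1) hy hyK hq
  refine ⟨l, v, hl, hv, ?_, ?_⟩
  · rw [hl1, hv1, ha, Quaternion.re_neg, re_comm, mul_assoc, mul_inv_cancel₀ hg, mul_one]
    simp
  · rw [hl2, hv2, ha, normSq_neg, map_mul, map_mul, map_inv₀, normSq_star]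
    have : normSq g ≠ 0 := fun h0 => hg (Quaternion.normSq_eq_zero.1 h0)
    field_simp

end

end Run7.h676.CS
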